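import Pool.Agent.K1H27.BN.Stm

set_option autoImplicit false

/-! Piece ONE of project BN: spectrum in one point. -/

namespace Pool.Agent.K1H27.BN

open MeasureTheory Set Metric Filter Topology
open Pool.Agent.R277.SP (FC zz)

theorem t_ONE : S_ONE := by
  intro E _ _ _ K _ Φ N M hF R hR c hc
  classical
  let I : Ideal C(K, ℂ) :=
    { carrier := {h | IsCompactOperator (Φ h)}
      add_mem' := by
        intro g h hg hh
        show IsCompactOperator (Φ (g + h))
        rw [map_add]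
        exact IsCompactOperator.add hg hh
      zero_mem' := by
        show IsCompactOperator (Φ 0)
        rw [map_zero]
        exact isCompactOperator_zero
      smul_mem' := by
        intro g h hh
        show IsCompactOperator (Φ (g * h))
        rw [map_mul]
        exact IsCompactOperator.clm_comp hh (Φ g) }
  have hIc : IsClosed (I : Set C(K, ℂ)) := by
    have h1 : Continuous Φ := by
      have : ∀ h, ‖Φ.toLinearMap h‖ ≤ M * ‖h‖ := hF.bd
      exact (Φ.toLinearMap.mkContinuous M this).continuous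
    have h2 : IsClosed {A : E →L[ℂ] E | IsCompactOperator A} := isClosed_setOfPred_isCompactOperator
    exact h2.preimage h1
  have hpt : ∀ s : K, (s : ℂ) ≠ c → s ∈ ContinuousMap.setOfIdeal I := by
    intro s hs
    have hns : (s : ℂ) ∉ spectrum ℂ (N + R) := fun h => hs (hc _ h)
    have hu : IsUnit (algebraMap ℂ (E →L[ℂ] E) s - (N + R)) := by
      rw [spectrum.mem_iff, not_not] at hns
      exact hns
    obtain ⟨V, hV⟩ : ∃ V, V = Ring.inverse (algebraMap ℂ (E →L[ℂ] E) s - (N + R)) := ⟨_, rfl⟩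
    have hVl : V * (algebraMap ℂ (E →L[ℂ] E) s - (N + R)) = 1 := by
      rw [hV]; exact Ring.inverse_mul_cancel _ hu
    have hM := hF.nonneg
    obtain ⟨δ, hδ0, hδ⟩ : ∃ δ : ℝ, 0 < δ ∧ ‖V‖ * (M * δ) < 1 := by
      refine ⟨1 / (‖V‖ * M + 1), by positivity, ?_⟩
      have h1 : 0 < ‖V‖ * M + 1 := by positivity
      have h2 : ‖V‖ * (M * (1 / (‖V‖ * M + 1))) = ‖V‖ * M / (‖V‖ * M + 1) := by field_simp
      rw [h2, div_lt_one h1]
      linarith
    let h : C(K, ℂ) := ⟨fun w => ((max 0 (1 - 2 * ‖(w : ℂ) - s‖ / δ) : ℝ) : ℂ), by fun_prop⟩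
    let k : C(K, ℂ) := ⟨fun w => ((max 0 (min 1 (2 - 2 * ‖(w : ℂ) - s‖ / δ)) : ℝ) : ℂ),
      by fun_prop⟩
    have hkh : k * h = h := by
      ext w
      show ((max 0 (min 1 (2 - 2 * ‖(w : ℂ) - s‖ / δ)) : ℝ) : ℂ) *
        ((max 0 (1 - 2 * ‖(w : ℂ) - s‖ / δ) : ℝ) : ℂ) = ((max 0 (1 - 2 * ‖(w : ℂ) - s‖ / δ) : ℝ) : ℂ)
      rcases le_or_gt (1 - 2 * ‖(w : ℂ) - s‖ / δ) 0 with h1 | h1
      · rw [max_eq_left h1]
        simp
      · rw [min_eq_left (by linarith), max_eq_right zero_le_one]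
        simp
    have hz : ‖(zz K - (s : ℂ) • (1 : C(K, ℂ))) * k‖ ≤ δ := by
      rw [ContinuousMap.norm_le _ hδ0.le]
      intro w
      show ‖((w : ℂ) - (s : ℂ) * 1) *
        ((max 0 (min 1 (2 - 2 * ‖(w : ℂ) - s‖ / δ)) : ℝ) : ℂ)‖ ≤ δ
      rw [mul_one, norm_mul, Complex.norm_real, Real.norm_eq_abs,
        abs_of_nonneg (le_max_left _ _)]
      have hm1 : max 0 (min 1 (2 - 2 * ‖(w : ℂ) - s‖ / δ)) ≤ 1 :=
        max_le zero_le_one (min_le_left _ _)
      rcases le_or_gt δ ‖(w : ℂ) - s‖ with h1 | h1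
      · have h2 : 2 - 2 * ‖(w : ℂ) - s‖ / δ ≤ 0 := by
          have h3 : 1 ≤ ‖(w : ℂ) - s‖ / δ := by rwa [le_div_iff₀ hδ0, one_mul]
          have h4 : 2 * ‖(w : ℂ) - s‖ / δ = 2 * (‖(w : ℂ) - s‖ / δ) := by ring
          rw [h4]
          linarith
        rw [max_eq_left (le_trans (min_le_right _ _) h2), mul_zero]
        exact hδ0.le
      · calc ‖(w : ℂ) - s‖ * max 0 (min 1 (2 - 2 * ‖(w : ℂ) - s‖ / δ))
            ≤ δ * 1 := mul_le_mul h1.le hm1 (le_max_left _ _) hδ0.le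
          _ = δ := mul_one δ
    obtain ⟨B, hB⟩ : ∃ B : E →L[ℂ] E, B = -(V * Φ ((zz K - (s : ℂ) • (1 : C(K, ℂ))) * k)) :=
      ⟨_, rfl⟩
    have hBn : ‖B‖ < 1 := by
      rw [hB, norm_neg]
      refine (norm_mul_le _ _).trans_lt (lt_of_le_of_lt ?_ hδ)
      refine mul_le_mul_of_nonneg_left ?_ (norm_nonneg _)
      exact (hF.bd _).trans (mul_le_mul_of_nonneg_left hz hM)
    have hbase : Φ h = B * Φ h - V * (R * Φ h) := by
      have e1 : Φ ((zz K - (s : ℂ) • (1 : C(K, ℂ))) * k) * Φ h = (N - (s : ℂ) • 1) * Φ h := by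
        rw [← map_mul, mul_assoc, hkh, map_mul, map_sub, map_smul, map_one, hF.id]
      have e2 : V * ((algebraMap ℂ (E →L[ℂ] E) s - (N + R)) * Φ h) = Φ h := by
        rw [← mul_assoc, hVl, one_mul]
      have e3 : (algebraMap ℂ (E →L[ℂ] E) s - (N + R)) * Φ h =
          -((N - (s : ℂ) • 1) * Φ h) - R * Φ h := by
        rw [Algebra.algebraMap_eq_smul_one]
        noncomm_ring
      rw [e3] at e2
      rw [hB, neg_mul, mul_assoc, e1]
      conv_lhs => rw [← e2]
      rw [mul_sub, mul_neg]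
    have hU : (1 - B) * Φ h = -(V * (R * Φ h)) := by
      rw [sub_mul, one_mul, sub_eq_iff_eq_add]
      exact hbase.trans (by abel)
    have hcomp : IsCompactOperator (Φ h) := by
      have hu1 : IsUnit (1 - B) := ⟨Units.oneSub B hBn, rfl⟩
      have h3 : Φ h = -((Ring.inverse (1 - B) * V) * (R * Φ h)) := by
        have h4 : Ring.inverse (1 - B) * ((1 - B) * Φ h) = Φ h := by
          rw [← mul_assoc, Ring.inverse_mul_cancel _ hu1, one_mul]
        rw [hU] at h4
        rw [mul_neg] at h4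
        rw [mul_assoc]
        exact h4.symm
      rw [h3]
      have h5 : IsCompactOperator (R * Φ h) := hR.comp_clm (Φ h)
      have h6 : IsCompactOperator ((Ring.inverse (1 - B) * V) * (R * Φ h)) :=
        h5.clm_comp (Ring.inverse (1 - B) * V)
      exact h6.neg
    rw [ContinuousMap.mem_setOfIdeal]
    refine ⟨h, hcomp, ?_⟩
    show ((max 0 (1 - 2 * ‖(s : ℂ) - s‖ / δ) : ℝ) : ℂ) ≠ 0
    simp
  have hmem : zz K - c • (1 : C(K, ℂ)) ∈ I := by
    rw [← ContinuousMap.idealOfSet_ofIdeal_isClosed hIc, ContinuousMap.mem_idealOfSet]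
    intro s hs
    by_cases h : (s : ℂ) = c
    · show (s : ℂ) - c * 1 = 0
      rw [h, mul_one, sub_self]
    · exact absurd (hpt s h) hs
  have h1 : IsCompactOperator (Φ (zz K - c • (1 : C(K, ℂ)))) := hmem
  rw [map_sub, map_smul, map_one, hF.id] at h1
  have h2 : N + R - c • (1 : E →L[ℂ] E) = (N - c • (1 : E →L[ℂ] E)) + R := by
    abel
  rw [h2]
  exact h1.add hR

end Pool.Agent.K1H27.BN
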